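import Pool.Agent.Helper55.RT.Spec5

/-!
# THIN-3, part AGT (helper6)
-/

set_option autoImplicit false
set_option linter.all false

namespace Pool.Agent.Helper6.Thin.AGT

open scoped Classical

variable {G : Type} [Group G]

/-- a product over a list which fixes a point -/
theorem prod_fix {X : Type} (L : List (Equiv.Perm X)) (y : X) (h : ∀ σ ∈ L, σ y = y) :
    L.prod y = y := by
  induction L with
  | nil => rfl
  | cons a L ih =>
    rw [List.prod_cons, Equiv.Perm.mul_apply, ih (fun σ hσ => h σ (List.mem_cons_of_mem _ hσ)),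
      h a List.mem_cons_self]

theorem prod_one_moves {X : Type} (S : Set X) : ∀ (l : ℕ) (τ : Fin l → Equiv.Perm X) (i : Fin l),
    (∀ j, j ≠ i → ∀ y ∈ S, τ j y = y) → (∀ y ∈ S, τ i y ∈ S) → ∀ y ∈ S,
    (List.ofFn τ).prod y = τ i y := by
  intro l
  induction l with
  | zero => intro τ i; exact i.elim0
  | succ l ih =>
    intro τ i h1 h2 y hy
    rw [List.ofFn_succ, List.prod_cons, Equiv.Perm.mul_apply]
    refine Fin.cases ?_ (fun i' => ?_) i h1 h2
    · intro h1 h2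
      rw [prod_fix]
      intro σ hσ
      rw [List.mem_ofFn] at hσ
      obtain ⟨j, rfl⟩ := hσ
      exact h1 _ (Fin.succ_ne_zero j) y hy
    · intro h1 h2
      have := ih (fun j => τ j.succ) i' (fun j hj y hy => h1 _ (fun h => hj (Fin.succ_injective _ h))
        y hy) h2 y hy
      rw [this]
      exact h1 0 (Fin.succ_ne_zero i').symm _ (h2 y hy)

theorem list_prod_commute (L : List G) (g : G) (h : ∀ x ∈ L, Commute x g) : Commute L.prod g := by
  induction L with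
  | nil => exact Commute.one_left g
  | cons a L ih =>
    rw [List.prod_cons]
    exact (h a List.mem_cons_self).mul_left (ih fun x hx => h x (List.mem_cons_of_mem _ hx))

theorem prod_pow_eq_one (ℓ : ℕ) (L : List G) (h1 : ∀ x ∈ L, ∀ y ∈ L, Commute x y)
    (h2 : ∀ x ∈ L, x ^ ℓ = 1) : L.prod ^ ℓ = 1 := by
  induction L with
  | nil => simp
  | cons a L ih =>
    rw [List.prod_cons]
    have hc : Commute a L.prod :=
      (list_prod_commute L a fun x hx => h1 x (List.mem_cons_of_mem _ hx) a List.mem_cons_self).symm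
    rw [hc.mul_pow, h2 a List.mem_cons_self, ih (fun x hx y hy =>
      h1 x (List.mem_cons_of_mem _ hx) y (List.mem_cons_of_mem _ hy))
      (fun x hx => h2 x (List.mem_cons_of_mem _ hx)), one_mul]

theorem pick (ℓ : ℕ) : ∀ (l : ℕ) (a : Fin l → ℕ), (∀ i j, ℓ ∣ a i → ℓ ∣ a j → i = j) →
    ∃ ι : Fin (l - 1) → Fin l, Function.Injective ι ∧ ∀ i, ¬ ℓ ∣ a (ι i) := by
  intro l
  cases l with
  | zero => intro a _; exact ⟨Fin.elim0, fun i => i.elim0, fun i => i.elim0⟩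
  | succ l =>
    intro a h
    by_cases hb : ∃ i, ℓ ∣ a i
    · obtain ⟨i0, hi0⟩ := hb
      exact ⟨i0.succAbove, Fin.succAbove_right_injective, fun i hi =>
        Fin.succAbove_ne i0 i (h _ _ hi hi0)⟩
    · push Not at hb
      exact ⟨(0 : Fin (l + 1)).succAbove, Fin.succAbove_right_injective, fun i => hb _⟩

/-- powers of `σ ^ a` and of `σ` -/
theorem zpow_orbit {X : Type} (ℓ a : ℕ) [hℓ : Fact ℓ.Prime] (σ : Equiv.Perm X) (hσ : σ ^ ℓ = 1)
    (ha : ¬ ℓ ∣ a) : ∃ b : ℕ, (σ ^ a) ^ b = σ := by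
  have hc : Nat.Coprime a ℓ := (Nat.Prime.coprime_iff_not_dvd hℓ.out).2 ha |>.symm
  obtain ⟨b, hb⟩ : ∃ b : ℕ, (a * b) ≡ 1 [MOD ℓ] := by
    obtain ⟨b, _, hb⟩ := Nat.exists_mul_mod_eq_one_of_coprime hc hℓ.out.one_lt
    exact ⟨b, by rw [Nat.ModEq, hb, Nat.mod_eq_of_lt hℓ.out.one_lt]⟩
  refine ⟨b, ?_⟩
  rw [← pow_mul]
  have : σ ^ (a * b) = σ ^ 1 := by
    rw [pow_eq_pow_iff_modEq]
    exact hb.of_dvd (orderOf_dvd_of_pow_eq_one hσ)
  rw [this, pow_one]

/-- the index of the common part of the conjugates -/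
theorem core_index [Finite G] (R H : Subgroup G) [hR : R.Normal] (g : G) (ℓ M : ℕ)
    (hM : H.relIndex R ≤ M) :
    (⨅ s : Fin ℓ, H.comap (MulAut.conj (g ^ (s : ℕ))⁻¹).toMonoidHom).relIndex R ≤ M ^ ℓ := by
  refine le_trans (Subgroup.relIndex_iInf_le _) ?_
  have h1 : ∀ s : Fin ℓ, (H.comap (MulAut.conj (g ^ (s : ℕ))⁻¹).toMonoidHom).relIndex R ≤ M := by
    intro s
    rw [Subgroup.relIndex_comap]
    have : R.map (MulAut.conj (g ^ (s : ℕ))⁻¹).toMonoidHom = R := by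
      ext x
      constructor
      · rintro ⟨y, hy, rfl⟩
        exact hR.conj_mem y hy _
      · intro hx
        refine ⟨(g ^ (s : ℕ)) * x * (g ^ (s : ℕ))⁻¹, hR.conj_mem x hx _, ?_⟩
        show (g ^ (s : ℕ))⁻¹ * ((g ^ (s : ℕ)) * x * (g ^ (s : ℕ))⁻¹) * ((g ^ (s : ℕ))⁻¹)⁻¹ = x
        group
    rw [this]
    exact hM
  calc _ ≤ ∏ _s : Fin ℓ, M := Finset.prod_le_prod' fun s _ => h1 s
    _ = M ^ ℓ := by simp

/-- a fixed vector over an extension gives a fixed vector over the base field -/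
theorem descend {F Ω : Type} [Field F] [Field Ω] [Algebra F Ω] {d : ℕ} (v : Fin d → Ω)
    (hv : v ≠ 0) : ∃ u : Fin d → F, u ≠ 0 ∧ ∀ M : Matrix (Fin d) (Fin d) F,
      (M.map (algebraMap F Ω)).mulVec v = v → M.mulVec u = u := by
  obtain ⟨i0, hi0⟩ : ∃ i, v i ≠ 0 := by
    by_contra h
    push Not at h
    exact hv (funext h)
  obtain ⟨f, hf⟩ : ∃ f : Module.Dual F Ω, f (v i0) ≠ 0 := by
    by_contra h
    push Not at h
    exact hi0 ((Module.forall_dual_apply_eq_zero_iff F (v i0)).1 h)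
  refine ⟨fun i => f (v i), fun h => hf (congrFun h i0), fun M hM => ?_⟩
  ext i
  have h1 := congrFun hM i
  simp only [Matrix.mulVec, dotProduct, Matrix.map_apply] at h1 ⊢
  rw [← h1, map_sum]
  refine Finset.sum_congr rfl fun j _ => ?_
  rw [← Algebra.smul_def, map_smul, smul_eq_mul]

open Pool.Agent.Helper55.RT

theorem main (hSTB : Q_STB) (hSZL : Q_SZL) (hEIG : Q_EIG) : Q_AGT := by
  intro p ℓ hp hℓ hne h3 A _ W _ _ _ m n hd hdm r φ N hN hNf hN1 hφ hp'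
  -- the finite group
  obtain ⟨Ψ, hΨ⟩ : ∃ Ψ : A →* (Module.End ℚ_[p] W)ˣ × Equiv.Perm (Fin n),
    ∀ a, ((Ψ a).1 : Module.End ℚ_[p] W) = r a ∧ (Ψ a).2 = φ a :=
    ⟨(MonoidHom.toHomUnits r).prod φ, fun a => ⟨rfl, rfl⟩⟩
  have hNker : N ≤ Ψ.ker := by
    intro a ha
    obtain ⟨h1, h2⟩ := hN1 a ha
    rw [MonoidHom.mem_ker]
    refine Prod.ext (Units.ext ?_) ?_
    · rw [(hΨ a).1, h1]; rfl
    · rw [(hΨ a).2, h2]; rfl
  haveI : Ψ.ker.FiniteIndex := Subgroup.finiteIndex_of_le hNker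
  haveI : Finite Ψ.range := Finite.of_equiv _ (QuotientGroup.quotientKerEquivRange Ψ).toEquiv
  obtain ⟨G, hGf, Ψ', hΨ', hΨ's⟩ : ∃ (G : Subgroup ((Module.End ℚ_[p] W)ˣ × Equiv.Perm (Fin n)))
      (_ : Finite G) (Ψ' : A →* G),
      (∀ a, ((Ψ' a : G) : (Module.End ℚ_[p] W)ˣ × Equiv.Perm (Fin n)) = Ψ a) ∧
      Function.Surjective Ψ' :=
    ⟨Ψ.range, inferInstance, Ψ.rangeRestrict, fun a => rfl, Ψ.rangeRestrict_surjective⟩
  obtain ⟨φ', hφ'⟩ : ∃ φ' : G →* Equiv.Perm (Fin n), ∀ g : G,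
      φ' g = (g : (Module.End ℚ_[p] W)ˣ × Equiv.Perm (Fin n)).2 :=
    ⟨(MonoidHom.snd _ _).comp G.subtype, fun g => rfl⟩
  have hφφ' : ∀ a, φ' (Ψ' a) = φ a := by
    intro a; rw [hφ', hΨ', (hΨ a).2]
  have hφ's : Function.Surjective φ' := by
    intro σ
    obtain ⟨a, ha⟩ := hφ σ
    exact ⟨Ψ' a, by rw [hφφ', ha]⟩
  obtain ⟨E, hE⟩ : ∃ E : G →* Module.End ℚ_[p] W, ∀ a, E (Ψ' a) = r a := by
    refine ⟨(Units.coeHom _).comp ((MonoidHom.fst _ _).comp G.subtype), fun a => ?_⟩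
    show (((Ψ' a : G) : (Module.End ℚ_[p] W)ˣ × Equiv.Perm (Fin n)).1 : Module.End ℚ_[p] W) = r a
    rw [hΨ', (hΨ a).1]
  have hEinj : ∀ g : G, E g = 1 → φ' g = 1 → g = 1 := by
    intro g h1 h2
    obtain ⟨a, rfl⟩ := hΨ's g
    rw [hE] at h1
    rw [hφφ'] at h2
    apply Subtype.ext
    rw [hΨ']
    refine Prod.ext (Units.ext ?_) ?_
    · rw [(hΨ a).1, h1]; rfl
    · rw [(hΨ a).2, h2]; rfl
  obtain ⟨R, hR⟩ : ∃ R : Subgroup G, R = φ'.ker := ⟨_, rfl⟩
  haveI hRn : R.Normal := by rw [hR]; infer_instance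
  have hRp : IsPGroup p R := by
    rintro ⟨g, hg⟩
    obtain ⟨k, u, hu, ho⟩ := Nat.exists_eq_pow_mul_and_not_dvd (orderOf_pos g).ne' p hp.out.ne_one
    refine ⟨k, Subtype.ext ?_⟩
    show g ^ p ^ k = 1
    obtain ⟨a, ha⟩ := hΨ's (g ^ p ^ k)
    rw [hR, MonoidHom.mem_ker] at hg
    have h1 : φ a = 1 := by rw [← hφφ', ha, map_pow, hg, one_pow]
    have h2 : r a ^ u = 1 := by
      rw [← hE, ha, ← map_pow, ← pow_mul, ← ho, pow_orderOf_eq_one, map_one]
    have h3 := hp' a h1 u ((Nat.Prime.coprime_iff_not_dvd hp.out).2 hu).symm h2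
    rw [← ha]
    exact hEinj _ (by rw [hE, h3]) (by rw [hφφ', h1])
  obtain ⟨c, x, hc1, hc2, hc3, hc4, hc5⟩ := hSZL p ℓ hne G n φ' hφ's (by rw [← hR]; exact hRp)
  -- matrices
  obtain ⟨d, hdd⟩ : ∃ d, d = Module.finrank ℚ_[p] W := ⟨_, rfl⟩
  rw [← hdd] at hd hdm
  obtain ⟨b⟩ : Nonempty (Module.Basis (Fin d) ℚ_[p] W) := ⟨Module.finBasisOfFinrankEq _ _ hdd.symm⟩
  obtain ⟨rM, hrM⟩ : ∃ rM : G →* Matrix (Fin d) (Fin d) ℚ_[p],
      ∀ g, rM g = LinearMap.toMatrix b b (E g) :=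
    ⟨((LinearMap.toMatrixAlgEquiv b : Module.End ℚ_[p] W ≃ₐ[ℚ_[p]] _) : _ →* _).comp E,
      fun g => rfl⟩
  obtain ⟨Ω, _, _, _, _⟩ : ∃ (Ω : Type) (_ : Field Ω) (_ : IsAlgClosed Ω) (_ : CharZero Ω),
      Nonempty (Algebra ℚ_[p] Ω) :=
    ⟨AlgebraicClosure ℚ_[p], inferInstance, inferInstance,
      charZero_of_injective_algebraMap (algebraMap ℚ_[p] (AlgebraicClosure ℚ_[p])).injective,
      ⟨inferInstance⟩⟩
  rename_i hAlg
  obtain ⟨hAlg⟩ := hAlg
  obtain ⟨T, hT⟩ : ∃ T : G →* Module.End Ω (Fin d → Ω), ∀ g v,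
      T g v = ((rM g).map (algebraMap ℚ_[p] Ω)).mulVec v := by
    refine ⟨(((Matrix.toLinAlgEquiv' : Matrix (Fin d) (Fin d) Ω ≃ₐ[Ω] _) : _ →* _).comp
      ((algebraMap ℚ_[p] Ω).mapMatrix : Matrix (Fin d) (Fin d) ℚ_[p] →+* _).toMonoidHom).comp rM,
      fun g v => ?_⟩
    rfl
  haveI : Nonempty (Fin d) := ⟨⟨0, hd⟩⟩
  obtain ⟨a, w, hw0, ha, hw⟩ := hEIG ℓ h3 Ω (Fin d → Ω) (n / ℓ) (fun i => T (c i))
    (fun i j => by
      show T (c i) * T (c j) = T (c j) * T (c i)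
      rw [← map_mul, ← map_mul, (hc1 i j).eq]) (fun i => by rw [← map_pow, hc2, map_one])
  obtain ⟨g, hg⟩ : ∃ g : G, g = (List.ofFn fun i => c i ^ a i).prod := ⟨_, rfl⟩
  have hTg : T g w = w := by
    rw [hg, map_list_prod, List.map_ofFn]
    have : (⇑T ∘ fun i => c i ^ a i) = fun i => T (c i) ^ a i := by
      ext1 i; simp
    rw [this]
    exact hw
  have hgℓ : g ^ ℓ = 1 := by
    rw [hg]
    apply prod_pow_eq_one
    · intro u hu v hv
      rw [List.mem_ofFn] at hu hv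
      obtain ⟨i, rfl⟩ := hu
      obtain ⟨j, rfl⟩ := hv
      exact (hc1 i j).pow_pow _ _
    · intro u hu
      rw [List.mem_ofFn] at hu
      obtain ⟨i, rfl⟩ := hu
      rw [← pow_mul, mul_comm, pow_mul, hc2, one_pow]
  -- the average
  obtain ⟨av, hav⟩ : ∃ av : (Fin d → Ω) →ₗ[Ω] (Fin d → Ω), ∀ v,
      av v = ∑ s : Fin ℓ, T (g ^ (s : ℕ)) v :=
    ⟨∑ s : Fin ℓ, T (g ^ (s : ℕ)), fun v => by rw [LinearMap.sum_apply]⟩
  have hTgs : ∀ s : ℕ, T (g ^ s) w = w := by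
    intro s
    induction s with
    | zero => simp
    | succ s ih => rw [pow_succ, map_mul, Module.End.mul_apply, hTg, ih]
  have havw : av w ≠ 0 := by
    rw [hav]
    simp only [hTgs, Finset.sum_const, Finset.card_univ, Fintype.card_fin]
    rw [← Nat.cast_smul_eq_nsmul Ω]
    exact smul_ne_zero (by exact_mod_cast hℓ.out.ne_zero) hw0
  -- stabilizers
  obtain ⟨rR, hrR⟩ : ∃ rR : R →* GL (Fin d) ℚ_[p], ∀ h : R, (rR h).1 = rM h :=
    ⟨MonoidHom.toHomUnits (rM.comp R.subtype), fun h => rfl⟩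
  have hspan := hSTB p Ω d hd R hRp rR
  obtain ⟨x0, ⟨H, hH1, hH2⟩, hx0⟩ : ∃ x0 : Fin d → Ω, (∃ H : Subgroup R,
      H.index ≤ 2 * p * d ^ 2 ∧ ∀ h ∈ H, ((rR h).1.map (algebraMap ℚ_[p] Ω)).mulVec x0 = x0) ∧
      av x0 ≠ 0 := by
    by_contra hcon
    push Not at hcon
    have : (⊤ : Submodule Ω (Fin d → Ω)) ≤ LinearMap.ker av := by
      rw [← hspan, Submodule.span_le]
      rintro y ⟨H, h1, h2⟩
      exact hcon y ⟨H, h1, h2⟩
    exact havw (this (Submodule.mem_top : w ∈ _))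
  obtain ⟨H', hH'⟩ : ∃ H' : Subgroup G, H' = H.map R.subtype := ⟨_, rfl⟩
  have hH'i : H'.relIndex R ≤ 2 * p * d ^ 2 := by
    rw [hH', Subgroup.relIndex, Subgroup.subgroupOf,
      Subgroup.comap_map_eq_self_of_injective R.subtype_injective]
    exact hH1
  have hH'R : H' ≤ R := by rw [hH']; exact Subgroup.map_subtype_le H
  have hH'x : ∀ h ∈ H', T h x0 = x0 := by
    intro h hh
    rw [hH'] at hh
    obtain ⟨h', hh', rfl⟩ := hh
    rw [hT]
    have := hH2 h' hh'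
    rw [hrR] at this
    exact this
  obtain ⟨K0, hK0⟩ : ∃ K0 : Subgroup G,
      K0 = (⨅ s : Fin ℓ, H'.comap (MulAut.conj (g ^ (s : ℕ))⁻¹).toMonoidHom) := ⟨_, rfl⟩
  have hK0i : K0.relIndex R ≤ (2 * p * m ^ 2) ^ ℓ := by
    rw [hK0]
    refine core_index R H' g ℓ _ (hH'i.trans ?_)
    gcongr
  have hK0m : ∀ k ∈ K0, ∀ s : Fin ℓ, (g ^ (s : ℕ))⁻¹ * k * (g ^ (s : ℕ)) ∈ H' := by
    intro k hk s
    rw [hK0, Subgroup.mem_iInf] at hk
    have := hk s
    rw [Subgroup.mem_comap] at this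
    have e : (MulAut.conj (g ^ (s : ℕ))⁻¹).toMonoidHom k =
        (g ^ (s : ℕ))⁻¹ * k * ((g ^ (s : ℕ))⁻¹)⁻¹ := rfl
    rw [e, inv_inv] at this
    exact this
  have hK0R : K0 ≤ R := by
    intro k hk
    have h1 := hH'R (hK0m k hk ⟨0, hℓ.out.pos⟩)
    simpa using h1
  -- the fixed vector
  have hfix0 : ∀ k ∈ K0, T k (av x0) = av x0 := by
    intro k hk
    rw [hav, map_sum]
    refine Finset.sum_congr rfl fun s _ => ?_
    have h1 := hH'x _ (hK0m k hk s)
    have h2 : T k (T (g ^ (s : ℕ)) x0) =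
        T (g ^ (s : ℕ)) (T ((g ^ (s : ℕ))⁻¹ * k * (g ^ (s : ℕ))) x0) := by
      rw [← Module.End.mul_apply, ← Module.End.mul_apply, ← map_mul, ← map_mul]
      congr 2
      group
    rw [h2, h1]
  have hfixg : T g (av x0) = av x0 := by
    rw [hav, map_sum]
    have h1 : ∀ s : Fin ℓ, T g (T (g ^ (s : ℕ)) x0) = T (g ^ ((s : ℕ) + 1)) x0 := by
      intro s
      rw [← Module.End.mul_apply, ← map_mul, ← pow_succ']
    simp only [h1]
    rw [Fin.sum_univ_eq_sum_range (fun s => T (g ^ (s + 1)) x0) ℓ,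
      Fin.sum_univ_eq_sum_range (fun s => T (g ^ s) x0) ℓ]
    have h2 := Finset.sum_range_succ (fun s => T (g ^ s) x0) ℓ
    have h4 := Finset.sum_range_succ' (fun s => T (g ^ s) x0) ℓ
    rw [hgℓ] at h2
    rw [pow_zero] at h4
    rw [h4] at h2
    exact add_right_cancel h2
  obtain ⟨St, hSt⟩ : ∃ St : Subgroup G, ∀ k, k ∈ St ↔ T k (av x0) = av x0 :=
    ⟨{ carrier := {k | T k (av x0) = av x0}
       mul_mem' := by
        intro u v hu hv
        show T (u * v) (av x0) = av x0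
        rw [map_mul, Module.End.mul_apply, show T v (av x0) = av x0 from hv]
        exact hu
       one_mem' := by
        show T 1 (av x0) = av x0
        rw [map_one]; rfl
       inv_mem' := by
        intro u hu
        show T u⁻¹ (av x0) = av x0
        conv_lhs => rw [← (show T u (av x0) = av x0 from hu)]
        rw [← Module.End.mul_apply, ← map_mul, inv_mul_cancel, map_one]; rfl }, fun k => Iff.rfl⟩
  obtain ⟨KG, hKG⟩ : ∃ KG : Subgroup G, KG = Subgroup.zpowers g ⊔ K0 := ⟨_, rfl⟩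
  have hKGSt : KG ≤ St := by
    rw [hKG]
    refine sup_le ?_ (fun k hk => (hSt k).2 (hfix0 k hk))
    rw [Subgroup.zpowers_le]
    exact (hSt g).2 hfixg
  obtain ⟨u, hu0, hu⟩ := descend (F := ℚ_[p]) (av x0) hx0
  -- the action on the points
  have hKGφ : ∀ k ∈ KG, ∃ s : ℕ, φ' k = φ' g ^ s := by
    have h1 : KG ≤ (Subgroup.zpowers (φ' g)).comap φ' := by
      rw [hKG]
      refine sup_le ?_ ?_
      · rw [Subgroup.zpowers_le, Subgroup.mem_comap]
        exact Subgroup.mem_zpowers _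
      · intro k hk
        have := hK0R hk
        rw [hR, MonoidHom.mem_ker] at this
        rw [Subgroup.mem_comap, this]
        exact Subgroup.one_mem _
    intro k hk
    have h2 := h1 hk
    rw [Subgroup.mem_comap] at h2
    have h3 : φ' k ∈ Submonoid.powers (φ' g) := by
      exact mem_powers_iff_mem_zpowers.2 h2
    obtain ⟨s, hs⟩ := h3
    exact ⟨s, hs.symm⟩
  obtain ⟨ι, hι1, hι2⟩ := pick ℓ (n / ℓ) a ha
  -- orbits
  have horb : ∀ i : Fin (n / ℓ), ∀ y ∈ {y | ∃ s : ℕ, (φ' (c i) ^ s) (x i) = y},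
      φ' g y = (φ' (c i) ^ a i) y := by
    intro i
    obtain ⟨S, hS⟩ : ∃ S : Set (Fin n), S = {y | ∃ s : ℕ, (φ' (c i) ^ s) (x i) = y} := ⟨_, rfl⟩
    rw [← hS]
    have hSs : ∀ y ∈ S, φ' (c i) y ∈ S := by
      intro y hy
      rw [hS] at hy ⊢
      obtain ⟨s, rfl⟩ := hy
      exact ⟨s + 1, by rw [pow_succ', Equiv.Perm.mul_apply]⟩
    have hSp : ∀ k : ℕ, ∀ y ∈ S, (φ' (c i) ^ k) y ∈ S := by
      intro k
      induction k with
      | zero => intro y hy; simpa using hy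
      | succ k ih => intro y hy; rw [pow_succ', Equiv.Perm.mul_apply]; exact hSs _ (ih y hy)
    have h1 : φ' g = (List.ofFn fun j => φ' (c j) ^ a j).prod := by
      rw [hg, map_list_prod, List.map_ofFn]
      congr 2
      ext1 j; simp
    rw [h1]
    refine prod_one_moves S (n / ℓ) (fun j => φ' (c j) ^ a j) i ?_ (hSp _)
    intro j hj y hy
    have h2 : φ' (c j) y = y := by
      rw [hS] at hy
      obtain ⟨s, rfl⟩ := hy
      exact hc4 i j (Ne.symm hj) s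
    show (φ' (c j) ^ a j) y = y
    generalize a j = k
    induction k with
    | zero => rfl
    | succ k ih => rw [pow_succ, Equiv.Perm.mul_apply, h2, ih]
  have hset : ∀ i : Fin (n / ℓ - 1), {y | ∃ e ∈ KG.comap Ψ', φ e (x (ι i)) = y} =
      {y | ∃ s : ℕ, (φ' (c (ι i)) ^ s) (x (ι i)) = y} := by
    intro i
    have hpow : ∀ s : ℕ, (φ' g ^ s) (x (ι i)) = ((φ' (c (ι i)) ^ a (ι i)) ^ s) (x (ι i)) := by
      intro s
      induction s with
      | zero => rfl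
      | succ s ih =>
        rw [pow_succ', Equiv.Perm.mul_apply, ih, pow_succ', Equiv.Perm.mul_apply]
        apply horb
        exact ⟨a (ι i) * s, by rw [pow_mul]⟩
    ext y
    constructor
    · rintro ⟨e, he, rfl⟩
      obtain ⟨s, hs⟩ := hKGφ _ he
      rw [hφφ'] at hs
      exact ⟨a (ι i) * s, by rw [hs, hpow, pow_mul]⟩
    · rintro ⟨s, rfl⟩
      obtain ⟨bb, hbb⟩ := zpow_orbit ℓ (a (ι i)) (φ' (c (ι i))) (by
        rw [← map_pow, hc2, map_one]) (hι2 i)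
      obtain ⟨e, he⟩ := hΨ's (g ^ (bb * s))
      refine ⟨e, ?_, ?_⟩
      · show Ψ' e ∈ KG
        rw [he, hKG]
        exact Subgroup.mem_sup_left (Subgroup.pow_mem _ (Subgroup.mem_zpowers g) _)
      · rw [← hφφ', he, map_pow, hpow, pow_mul, hbb]
  refine ⟨KG.comap Ψ', fun i => x (ι i), ?_, ?_, ?_, ?_, ?_⟩
  · intro e he
    have h1 := hNker he
    rw [MonoidHom.mem_ker] at h1
    have h2 : Ψ' e = 1 := Subtype.ext (by rw [hΨ', h1]; rfl)
    show Ψ' e ∈ KG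
    rw [h2]
    exact Subgroup.one_mem _
  · refine ⟨b.equivFun.symm u, ?_, ?_⟩
    · intro h
      apply hu0
      have := congrArg b.equivFun h
      rwa [LinearEquiv.apply_symm_apply, map_zero] at this
    · intro e he
      have h1 := (hSt _).1 (hKGSt (show Ψ' e ∈ KG from he))
      rw [hT, hrM, hE] at h1
      have h2 := hu _ h1
      apply b.equivFun.injective
      rw [LinearEquiv.apply_symm_apply]
      have h4 := LinearMap.toMatrix_mulVec_repr b b (r e) (b.equivFun.symm u)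
      have h5 : ⇑(b.repr (b.equivFun.symm u)) = u := by
        have := b.equivFun.apply_symm_apply u
        exact this
      rw [h5, h2] at h4
      exact h4.symm
  · intro i
    rw [hset]
    exact hc3 _
  · intro i j hij e he h
    have h1 : x (ι j) ∈ {y | ∃ e ∈ KG.comap Ψ', φ e (x (ι i)) = y} := ⟨e, he, h⟩
    rw [hset] at h1
    obtain ⟨s, hs⟩ := h1
    exact hc5 (ι i) (ι j) (fun h => hij (hι1 h)) s hs
  · have h1 : (K0.comap Ψ').relIndex φ.ker = K0.relIndex R := by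
      rw [Subgroup.relIndex_comap]
      congr 1
      ext k
      constructor
      · rintro ⟨e, he, rfl⟩
        rw [hR, MonoidHom.mem_ker, hφφ']
        exact he
      · intro hk
        obtain ⟨e, rfl⟩ := hΨ's k
        rw [hR, MonoidHom.mem_ker, hφφ'] at hk
        exact ⟨e, hk, rfl⟩
    have h2 : (K0.comap Ψ').relIndex φ.ker ≠ 0 := by
      rw [h1, Subgroup.relIndex]
      exact Subgroup.index_ne_zero_of_finite
    have h4 : (KG.comap Ψ' ⊓ φ.ker).relIndex φ.ker = (KG.comap Ψ').relIndex φ.ker :=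
      Subgroup.inf_relIndex_right _ _
    rw [h4]
    refine le_trans (Subgroup.relIndex_le_of_le_left ?_ h2) (h1.trans_le hK0i)
    apply Subgroup.comap_mono
    rw [hKG]
    exact le_sup_right

end Pool.Agent.Helper6.Thin.AGT
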